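import Pool.Agent.W586.CS.Stm

/-!
Project CS: the complex form follows from the real form.
-/

set_option autoImplicit false
open MvPolynomial

namespace Pool.Agent.W933.CS

open Pool.Agent.W586.CS

theorem main (h : S_CORE) : S_CPX := by
  intro n d hn A hA
  have : Nonempty (Fin n) := ⟨⟨0, hn⟩⟩
  let B : Fin d → Matrix (Fin n ⊕ Fin n) (Fin n ⊕ Fin n) ℝ := fun j =>
    Matrix.fromBlocks (Matrix.of fun a b => (A j a b).re) (Matrix.of fun a b => -(A j a b).im)
      (Matrix.of fun a b => (A j a b).im) (Matrix.of fun a b => (A j a b).re)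
  have hB : ∀ j, (B j).IsSymm := by
    intro j
    have hab : ∀ a b, A j b a = star (A j a b) := fun a b => ((hA j).apply b a).symm
    have h1 : ∀ a b, (A j b a).re = (A j a b).re := fun a b => by rw [hab a b]; simp
    have h2 : ∀ a b, (A j b a).im = -(A j a b).im := fun a b => by rw [hab a b]; simp
    apply Matrix.IsSymm.ext
    rintro (p | p) (q | q)
    · simpa [B] using h1 p q
    · simpa [B] using h2 p q
    · have := h2 p q
      simp only [B, Matrix.fromBlocks_apply₁₂, Matrix.fromBlocks_apply₂₁, Matrix.of_apply]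
      linarith
    · simpa [B] using h1 p q
  obtain ⟨x, ξ, hξ, hL⟩ := h d (Fin n ⊕ Fin n) B hB
  refine ⟨x, fun I a => (ξ I (Sum.inl a) : ℂ) + Complex.I * (ξ I (Sum.inr a) : ℂ), ?_,
    fun I a => ?_⟩
  · intro h0
    apply hξ
    funext I p
    have h1 : ∀ a, (ξ I (Sum.inl a) : ℂ) + Complex.I * (ξ I (Sum.inr a) : ℂ) = 0 := fun a =>
      congrFun (congrFun h0 I) a
    rcases p with a | a
    · have := congrArg Complex.re (h1 a)
      simpa using this
    · have := congrArg Complex.im (h1 a)
      simpa using this
  · have e1 := congrFun (congrFun hL I) (Sum.inl a)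
    have e2 := congrFun (congrFun hL I) (Sum.inr a)
    unfold Lx at e1 e2
    simp only [Fintype.sum_sum_type, B, Matrix.fromBlocks_apply₁₁, Matrix.fromBlocks_apply₁₂,
      Matrix.fromBlocks_apply₂₁, Matrix.fromBlocks_apply₂₂, Matrix.of_apply, Pi.zero_apply] at e1 e2
    apply Complex.ext
    · rw [Complex.re_sum, Complex.zero_re, ← e1]
      refine Finset.sum_congr rfl fun j _ => ?_
      rw [Complex.re_ofReal_mul, Complex.sub_re, Complex.re_sum, ← Finset.sum_add_distrib]
      congr 2
      · refine Finset.sum_congr rfl fun b _ => ?_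
        simp [Complex.mul_re]
        ring
      · simp
    · rw [Complex.im_sum, Complex.zero_im, ← e2]
      refine Finset.sum_congr rfl fun j _ => ?_
      rw [Complex.im_ofReal_mul, Complex.sub_im, Complex.im_sum, ← Finset.sum_add_distrib]
      congr 2
      · refine Finset.sum_congr rfl fun b _ => ?_
        simp [Complex.mul_im]
        ring
      · simp

end Pool.Agent.W933.CS
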